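import Pool.Agent.N311.SH.Stm

/-! Project SH (helper311): the maps isotopic to the identity form a normal subgroup. -/

set_option autoImplicit false
open Set Metric Filter Topology MeasureTheory
open scoped OnePoint

namespace Pool.Agent.N199.SH

open Pool.Agent.N311.SH

theorem iso_mul {X : Type} [TopologicalSpace X] {A B : X ≃ₜ X} (hA : Iso X A) (hB : Iso X B) :
    Iso X (A * B) := by
  obtain ⟨F, hF, F0, F1⟩ := hA
  obtain ⟨G, hG, G0, G1⟩ := hB
  refine ⟨fun t => F t * G t, ?_, ?_, ?_⟩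
  · exact hF.comp (continuous_fst.prodMk hG)
  · change F 0 * G 0 = 1
    rw [F0, G0, one_mul]
  · change F 1 * G 1 = A * B
    rw [F1, G1]

theorem iso_conj {X : Type} [TopologicalSpace X] (H : X ≃ₜ X) {A : X ≃ₜ X} (hA : Iso X A) :
    Iso X (H * A * H⁻¹) := by
  obtain ⟨F, hF, F0, F1⟩ := hA
  refine ⟨fun t => H * F t * H⁻¹, ?_, ?_, ?_⟩
  · exact H.continuous.comp (hF.comp (continuous_fst.prodMk
      ((H⁻¹ : X ≃ₜ X).continuous.comp continuous_snd)))
  · change H * F 0 * H⁻¹ = 1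
    rw [F0, mul_one, mul_inv_cancel]
  · change H * F 1 * H⁻¹ = H * A * H⁻¹
    rw [F1]

theorem iso_inv {X : Type} [TopologicalSpace X] [CompactSpace X] [T2Space X] {A : X ≃ₜ X}
    (hA : Iso X A) : Iso X A⁻¹ := by
  obtain ⟨F, hF, F0, F1⟩ := hA
  let Φ : (unitInterval × X) ≃ (unitInterval × X) :=
    { toFun := fun p => (p.1, F p.1 p.2)
      invFun := fun p => (p.1, (F p.1).symm p.2)
      left_inv := fun p => Prod.ext rfl ((F p.1).symm_apply_apply p.2)
      right_inv := fun p => Prod.ext rfl ((F p.1).apply_symm_apply p.2) }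
  have hΦ : Continuous Φ := continuous_fst.prodMk hF
  refine ⟨fun t => (F t)⁻¹, ?_, ?_, ?_⟩
  · exact continuous_snd.comp (Continuous.homeoOfEquivCompactToT2 hΦ).symm.continuous
  · change (F 0)⁻¹ = 1
    rw [F0, inv_one]
  · change (F 1)⁻¹ = A⁻¹
    rw [F1]

/-- ISO -/
theorem iso : S_ISO :=
  ⟨fun _ _ hA hB => iso_mul hA hB, fun _ hA => iso_inv hA, fun H _ hA => iso_conj H hA⟩

end Pool.Agent.N199.SH
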